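import Pool.Agent.N830.VR.Stm

set_option autoImplicit false

open Polynomial

namespace Pool.Agent.N92.VR

open Pool.Agent.N830.VR

/-- homogenized evaluation of a polynomial -/
noncomputable def hev {k A : Type} [Field k] [CommRing A] [Algebra k A] (N : ℕ) (p : k[X])
    (a b : A) : A := ∑ i ∈ Finset.range (N + 1), algebraMap k A (p.coeff i) * a ^ i * b ^ (N - i)

theorem hev_map {k A B : Type} [Field k] [CommRing A] [Algebra k A] [CommRing B] [Algebra k B]
    (ψ : A →ₐ[k] B) (N : ℕ) (p : k[X]) (a b : A) : ψ (hev N p a b) = hev N p (ψ a) (ψ b) := by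
  unfold hev
  rw [map_sum]
  apply Finset.sum_congr rfl
  intro i _
  rw [map_mul, map_mul, map_pow, map_pow, AlgHom.commutes]

theorem hev_field {k K : Type} [Field k] [Field K] [Algebra k K] (N : ℕ) (p : k[X])
    (hp : p.natDegree ≤ N) (a b : K) (hb : b ≠ 0) : hev N p a b = b ^ N * aeval (a / b) p := by
  unfold hev
  rw [aeval_eq_sum_range' (Nat.lt_succ_of_le hp), Finset.mul_sum]
  apply Finset.sum_congr rfl
  intro i hi
  rw [Finset.mem_range] at hi
  have h1 : b ^ N = b ^ (N - i) * b ^ i := by rw [← pow_add]; congr 1; omega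
  rw [h1, Algebra.smul_def, div_pow]
  field_simp

/-- the kernel of the parametrization -/
theorem ker_dvd (h : S_ELIM) {k : Type} [Field k] (φ : MvPolynomial (Fin 2) k)
    (hφ : Irreducible φ) (z : Fin 2 → RatFunc k) (hz : MvPolynomial.aeval z φ = 0)
    (hnc : ∃ i, ∀ c : k, z i ≠ RatFunc.C c) (E : MvPolynomial (Fin 2) k)
    (hE : MvPolynomial.aeval z E = 0) : φ ∣ E := by
  by_contra hcon
  obtain ⟨i, hi⟩ := hnc
  obtain ⟨r, hr, U, V, hUV⟩ := h k φ E hφ hcon i
  have h1 : aeval (z i) r = 0 := by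
    have h2 := congrArg (MvPolynomial.aeval z) hUV
    rw [← Polynomial.aeval_algHom_apply, MvPolynomial.aeval_X, map_add, map_mul, map_mul, hz, hE,
      mul_zero, mul_zero, add_zero] at h2
    exact h2
  have h3 : Transcendental k (z i) := (z i).transcendental_of_ne_C (by
    rintro ⟨c, hc⟩
    exact hi c hc)
  exact h3 ⟨r, hr, h1⟩

theorem frac_exists {k : Type} [Field k] (s x : RatFunc k) (hx : x ∈ IntermediateField.adjoin k {s}) :
    ∃ r q : k[X], aeval s q ≠ 0 ∧ aeval s r = x * aeval s q := by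
  obtain ⟨r, q, h⟩ := (IntermediateField.mem_adjoin_simple_iff k x).mp hx
  by_cases hq : aeval s q = 0
  · refine ⟨0, 1, by simp, ?_⟩
    rw [hq, div_zero] at h
    rw [h]; simp
  · refine ⟨r, q, hq, ?_⟩
    rw [h, div_mul_cancel₀ _ hq]

theorem cover (h : S_ELIM) : S_COVER := by
  classical
  intro k _ φ hφ z hz hnc
  have hker := ker_dvd h φ hφ z hz hnc
  set L : IntermediateField k (RatFunc k) := IntermediateField.adjoin k (Set.range z) with hL
  have hzL : ∀ i, z i ∈ L := fun i => IntermediateField.subset_adjoin k _ ⟨i, rfl⟩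
  have hLbot : L ≠ ⊥ := by
    intro hb
    obtain ⟨i, hi⟩ := hnc
    have h1 := hzL i
    rw [hb, IntermediateField.mem_bot] at h1
    obtain ⟨c, hc⟩ := h1
    exact hi c hc.symm
  set s : RatFunc k := RatFunc.Luroth.generator L with hs
  have hLs : L = IntermediateField.adjoin k {s} := RatFunc.Luroth.eq_adjoin_generator
  have hst : Transcendental k s := RatFunc.Luroth.transcendental_generator hLbot
  -- numerators and denominators
  obtain ⟨r0, q0, hq0, hr0⟩ := frac_exists s (z 0) (hLs ▸ hzL 0)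
  obtain ⟨r1, q1, hq1, hr1⟩ := frac_exists s (z 1) (hLs ▸ hzL 1)
  set p : Fin 3 → k[X] := ![q0 * q1, r0 * q1, r1 * q0] with hp
  obtain ⟨g, hg⟩ := (IsPrincipalIdealRing.principal (Ideal.span (Set.range p))).principal
  have hgp : ∀ j, g ∣ p j := by
    intro j
    rw [← Ideal.mem_span_singleton]
    have : p j ∈ Ideal.span (Set.range p) := Ideal.subset_span ⟨j, rfl⟩
    rw [hg] at this
    exact this
  choose P hP using hgp
  have hgmem : g ∈ Ideal.span (Set.range p) := by
    rw [hg]
    exact Ideal.mem_span_singleton_self g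
  obtain ⟨U, hU⟩ := (Ideal.mem_span_range_iff_exists_fun).mp hgmem
  have hgs : aeval s g ≠ 0 := by
    intro h0
    have h1 : aeval s (p 0) = 0 := by rw [hP 0, map_mul, h0, zero_mul]
    simp only [hp, Matrix.cons_val_zero, map_mul] at h1
    exact mul_ne_zero hq0 hq1 h1
  have hg0 : g ≠ 0 := by
    intro h0; apply hgs; rw [h0, map_zero]
  have hone : ∑ j, U j * P j = 1 := by
    have h1 : g * ∑ j, U j * P j = g * 1 := by
      rw [Finset.mul_sum, mul_one]
      conv_rhs => rw [← hU]
      apply Finset.sum_congr rfl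
      intro j _
      rw [hP j]; ring
    exact mul_left_cancel₀ hg0 h1
  have hNZ : NoZero P := by
    intro F _ _ x
    by_contra hcon
    push Not at hcon
    have h1 := congrArg (aeval x) hone
    rw [map_sum, map_one] at h1
    have h2 : ∑ j, aeval x (U j * P j) = 0 := by
      apply Finset.sum_eq_zero
      intro j _
      rw [map_mul, hcon j, mul_zero]
    rw [h2] at h1
    exact zero_ne_one h1
  have e1 : aeval s (P 1) = z 0 * aeval s (P 0) := by
    have h1 : aeval s (p 1) = z 0 * aeval s (p 0) := by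
      simp only [hp, Matrix.cons_val_zero, Matrix.cons_val_one, map_mul]
      rw [hr0]; ring
    rw [hP 1, hP 0, map_mul, map_mul] at h1
    apply mul_left_cancel₀ hgs
    rw [h1]; ring
  have e2 : aeval s (P 2) = z 1 * aeval s (P 0) := by
    have h1 : aeval s (p 2) = z 1 * aeval s (p 0) := by
      have h2 : p 2 = r1 * q0 := rfl
      have h3 : p 0 = q0 * q1 := rfl
      rw [h2, h3, map_mul, map_mul, hr1]; ring
    rw [hP 2, hP 0, map_mul, map_mul] at h1
    apply mul_left_cancel₀ hgs
    rw [h1]; ring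
  have hP0 : aeval s (P 0) ≠ 0 := by
    intro h0
    rw [h0, mul_zero] at e1 e2
    obtain ⟨j, hj⟩ := hNZ (RatFunc k) s
    fin_cases j
    · exact hj h0
    · exact hj e1
    · exact hj e2
  have hnconst : ∃ j, 1 ≤ (P j).natDegree := by
    by_contra hcon
    push Not at hcon
    have hc : ∀ j, aeval s (P j) = RatFunc.C ((P j).coeff 0) := by
      intro j
      have h1 := Polynomial.eq_C_of_natDegree_eq_zero (Nat.lt_one_iff.mp (hcon j))
      rw [h1, aeval_C]
      simp
    obtain ⟨i, hi⟩ := hnc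
    have h0 := hc 0
    have h0' : RatFunc.C ((P 0).coeff 0) ≠ (0 : RatFunc k) := h0 ▸ hP0
    fin_cases i
    · apply hi ((P 1).coeff 0 / (P 0).coeff 0)
      rw [map_div₀, eq_div_iff h0', ← h0, ← hc 1]
      exact e1.symm
    · apply hi ((P 2).coeff 0 / (P 0).coeff 0)
      rw [map_div₀, eq_div_iff h0', ← h0, ← hc 2]
      exact e2.symm
  refine ⟨P, hNZ, hnconst, ?_⟩
  -- the parameter as a function of the point
  have hsL : s ∈ L := by rw [hLs]; exact IntermediateField.mem_adjoin_simple_self k s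
  obtain ⟨H1, H2, hH⟩ := (IntermediateField.mem_adjoin_range_iff k z s).mp hsL
  have hH2 : MvPolynomial.aeval z H2 ≠ 0 := by
    intro h0
    rw [h0, div_zero] at hH
    apply hst
    exact ⟨X, X_ne_zero, by rw [hH]; simp⟩
  set N : ℕ := Finset.univ.sup (fun j => (P j).natDegree) with hN
  have hNj : ∀ j, (P j).natDegree ≤ N := fun j =>
    Finset.le_sup (f := fun j => (P j).natDegree) (Finset.mem_univ j)
  have hE : ∀ (i : Fin 2) (j : Fin 3), aeval s (P j) = z i * aeval s (P 0) →
      φ ∣ hev N (P j) H1 H2 - MvPolynomial.X i * hev N (P 0) H1 H2 := by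
    intro i j hij
    apply hker
    rw [map_sub, map_mul, MvPolynomial.aeval_X, hev_map, hev_map, hev_field N _ (hNj j) _ _ hH2,
      hev_field N _ (hNj 0) _ _ hH2, ← hH, hij]
    ring
  have hφH : ¬ φ ∣ H2 := by
    rintro ⟨e, he⟩
    apply hH2
    rw [he, map_mul, hz, zero_mul]
  choose r hr0' Ur Vr hrUV using h k φ H2 hφ hφH
  refine ⟨Fintype.piFinset (fun i => (r i).roots.toFinset), ?_⟩
  intro x hx hxQ
  have hev1 : ∀ G : MvPolynomial (Fin 2) k, MvPolynomial.eval x G = MvPolynomial.aeval x G := by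
    intro G
    rw [MvPolynomial.aeval_def, Algebra.algebraMap_self]
    rfl
  have hxH : MvPolynomial.aeval x H2 ≠ 0 := by
    intro h0
    apply hxQ
    rw [Fintype.mem_piFinset]
    intro i
    rw [Multiset.mem_toFinset, Polynomial.mem_roots (hr0' i), IsRoot.def]
    have h2 := congrArg (MvPolynomial.aeval x) (hrUV i)
    rw [← Polynomial.aeval_algHom_apply, MvPolynomial.aeval_X, map_add, map_mul, map_mul, h0,
      ← hev1 φ, hx, mul_zero, mul_zero, add_zero, Polynomial.coe_aeval_eq_eval] at h2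
    exact h2
  set t : k := MvPolynomial.aeval x H1 / MvPolynomial.aeval x H2 with ht
  have hxE : ∀ (i : Fin 2) (j : Fin 3), aeval s (P j) = z i * aeval s (P 0) →
      eval t (P j) = x i * eval t (P 0) := by
    intro i j hij
    obtain ⟨e, he⟩ := hE i j hij
    have h1 := congrArg (MvPolynomial.aeval x) he
    rw [map_mul, ← hev1 φ, hx, zero_mul, map_sub, map_mul, MvPolynomial.aeval_X, hev_map, hev_map,
      hev_field N _ (hNj j) _ _ hxH, hev_field N _ (hNj 0) _ _ hxH, ← ht,
      Polynomial.coe_aeval_eq_eval] at h1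
    have h2 : (MvPolynomial.aeval x H2) ^ N * (eval t (P j) - x i * eval t (P 0)) = 0 := by
      rw [← h1]; ring
    rcases mul_eq_zero.mp h2 with h3 | h3
    · exact absurd h3 (pow_ne_zero _ hxH)
    · exact sub_eq_zero.mp h3
  have f1 := hxE 0 1 e1
  have f2 := hxE 1 2 e2
  refine ⟨t, ?_, f1, f2⟩
  intro h0
  rw [h0, mul_zero] at f1 f2
  obtain ⟨j, hj⟩ := hNZ k t
  rw [Polynomial.coe_aeval_eq_eval] at hj
  fin_cases j
  · exact hj h0
  · exact hj f1
  · exact hj f2

end Pool.Agent.N92.VR
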